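import Pool.Agent.P.MP_7b7370_an.GrMain
import Pool.Agent.P.MP_7b7370_an.CL
import Pool.Agent.P.MP_7b7370_an.SBMain

set_option autoImplicit false

namespace Pool.Agent.Results.MP_7b7370_an.PlaneGraphs

/-- The polygonal Faber-Krahn inequality for every bounded open set whose frontier is a plane
straight-line graph on `N ≥ 5` points: holes, slits, pinch points and several components are
allowed, and the number `M` of segments is arbitrary. -/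
theorem result :
    ∀ N : ℕ, 5 ≤ N → ∀ (v : Fin N → ℂ) (M : ℕ) (s t : Fin M → Fin N) (Ω : Set ℂ) (r : ℝ)
      (Ω₀ : Set ℂ),
      (∀ i j : Fin M, i ≠ j →
          ∀ z ∈ segment ℝ (v (s i)) (v (t i)) ∩ segment ℝ (v (s j)) (v (t j)),
            ∃ l : Fin N, z = v l) →
      IsOpen Ω → Bornology.IsBounded Ω →
      frontier Ω = ⋃ i : Fin M, segment ℝ (v (s i)) (v (t i)) →
      0 < r → IsOpen Ω₀ → Bornology.IsBounded Ω₀ →
      frontier Ω₀ = ⋃ i : Fin N,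
          segment ℝ
            ((r : ℂ) * Complex.exp (2 * (Real.pi : ℂ) * Complex.I * (((i : ℕ) : ℂ)) / (N : ℂ)))
            ((r : ℂ) * Complex.exp (2 * (Real.pi : ℂ) * Complex.I *
                ((((finRotate N i : Fin N) : ℕ) : ℂ)) / (N : ℂ))) →
      MeasureTheory.volume Ω₀ = MeasureTheory.volume Ω →
      sInf {q : ℝ | ∃ f : ℂ → ℝ, ContDiff ℝ 1 f ∧ HasCompactSupport f ∧ tsupport f ⊆ Ω₀ ∧
          f ≠ 0 ∧ q = (∫ x, ‖fderiv ℝ f x‖ ^ 2) / (∫ x, f x ^ 2)}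
        ≤ sInf {q : ℝ | ∃ f : ℂ → ℝ, ContDiff ℝ 1 f ∧ HasCompactSupport f ∧ tsupport f ⊆ Ω ∧
          f ≠ 0 ∧ q = (∫ x, ‖fderiv ℝ f x‖ ^ 2) / (∫ x, f x ^ 2)} := by
  intro N hN v M s t Ω r Ω₀ h1 h2 h3 h4 h5 h6 h7 h8 h9
  refine Pool.Agent.PSF.Gr.main Pool.Agent.PSF.cellIneq Pool.Agent.PSF.support4 hN r Ω₀
    ⟨h1, h2, h3, h4⟩ ?_ h5 h6 h7 h8 h9
  have h0 : Ω₀.Nonempty := by
    by_contra hcon
    rw [Set.not_nonempty_iff_eq_empty.1 hcon, frontier_empty] at h8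
    have h := Set.iUnion_eq_empty.1 h8.symm ⟨0, by omega⟩
    exact Set.notMem_empty _ (h ▸ left_mem_segment ℝ _ _)
  exact MeasureTheory.nonempty_of_measure_ne_zero
    (h9 ▸ (h6.measure_pos MeasureTheory.volume h0).ne')

/-- Q1 (all simple `N`-gons, flat angles allowed) is the case `M = N`, `s = id`,
`t = finRotate N`. -/
theorem simple_polygons :
    ∀ N : ℕ, 5 ≤ N → ∀ (v : Fin N → ℂ) (Ω : Set ℂ) (r : ℝ) (Ω₀ : Set ℂ),
      (∀ i j : Fin N, i ≠ j →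
          ∀ z ∈ segment ℝ (v i) (v (finRotate N i)) ∩ segment ℝ (v j) (v (finRotate N j)),
            (finRotate N i = j ∧ z = v j) ∨ (finRotate N j = i ∧ z = v i)) →
      IsOpen Ω → Bornology.IsBounded Ω →
      frontier Ω = ⋃ i : Fin N, segment ℝ (v i) (v (finRotate N i)) →
      0 < r → IsOpen Ω₀ → Bornology.IsBounded Ω₀ →
      frontier Ω₀ = ⋃ i : Fin N,
          segment ℝ
            ((r : ℂ) * Complex.exp (2 * (Real.pi : ℂ) * Complex.I * (((i : ℕ) : ℂ)) / (N : ℂ)))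
            ((r : ℂ) * Complex.exp (2 * (Real.pi : ℂ) * Complex.I *
                ((((finRotate N i : Fin N) : ℕ) : ℂ)) / (N : ℂ))) →
      MeasureTheory.volume Ω₀ = MeasureTheory.volume Ω →
      sInf {q : ℝ | ∃ f : ℂ → ℝ, ContDiff ℝ 1 f ∧ HasCompactSupport f ∧ tsupport f ⊆ Ω₀ ∧
          f ≠ 0 ∧ q = (∫ x, ‖fderiv ℝ f x‖ ^ 2) / (∫ x, f x ^ 2)}
        ≤ sInf {q : ℝ | ∃ f : ℂ → ℝ, ContDiff ℝ 1 f ∧ HasCompactSupport f ∧ tsupport f ⊆ Ω ∧
          f ≠ 0 ∧ q = (∫ x, ‖fderiv ℝ f x‖ ^ 2) / (∫ x, f x ^ 2)} :=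
  fun N hN v Ω r Ω₀ h1 => result N hN v N id (finRotate N) Ω r Ω₀ fun i j hij z hz =>
    (h1 i j hij z hz).elim (fun h => ⟨j, h.2⟩) fun h => ⟨i, h.2⟩

end Pool.Agent.Results.MP_7b7370_an.PlaneGraphs
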